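import Mathlib

/-!
Counting boxes in graphs: helper file for MP_c798af_co.
-/

set_option autoImplicit false
set_option linter.unusedSectionVars false

namespace Pool.Agent.H927R5.Vu

open Finset
open scoped Classical

/-- `r`-tuples -/
def T (V : Type) : ℕ → Type
  | 0 => Unit
  | r + 1 => V × T V r

noncomputable instance instT (V : Type) [Fintype V] : ∀ r, Fintype (T V r)
  | 0 => inferInstanceAs (Fintype Unit)
  | r + 1 => @instFintypeProd V (T V r) _ (instT V r)

variable {V : Type} [Fintype V]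

theorem sum_T0 (f : T V 0 → ℝ) : ∑ x : T V 0, f x = f () := by
  have h : ∀ g : Unit → ℝ, ∑ x : Unit, g x = g () := fun g => by simp
  exact h f

theorem sum_T (r : ℕ) (f : T V (r + 1) → ℝ) :
    ∑ x : T V (r + 1), f x = ∑ u : V, ∑ x : T V r, f (u, x) := by
  show ∑ x : V × T V r, f x = _
  exact Fintype.sum_prod_type f

theorem card_T (r : ℕ) : ∑ _x : T V r, (1 : ℝ) = (Fintype.card V : ℝ) ^ r := by
  induction r with
  | zero => rw [sum_T0]; simp
  | succ r ih =>
    rw [sum_T]
    simp only [ih]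
    rw [Finset.sum_const, Finset.card_univ, nsmul_eq_mul, pow_succ]
    ring

/-- weighted number of boxes -/
noncomputable def B : ∀ r, (T V r → ℝ) → ℝ
  | 0, f => f ()
  | r + 1, f => ∑ u : V, ∑ v : V, B r (fun x => f (u, x) * f (v, x))

theorem mean_pow {ι : Type} [Fintype ι] (N : ℝ) (hN : N = (Fintype.card ι : ℝ)) (hN0 : 0 < N)
    (a : ι → ℝ) (ha : ∀ i, 0 ≤ a i) (k : ℕ) : N * ((∑ i, a i) / N) ^ k ≤ ∑ i, a i ^ k := by
  have h := Real.pow_arith_mean_le_arith_mean_pow (Finset.univ : Finset ι) (fun _ => 1 / N) a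
    (fun _ _ => by positivity) (by
      rw [Finset.sum_const, Finset.card_univ, nsmul_eq_mul, ← hN]
      field_simp) (fun i _ => ha i) k
  rw [← Finset.mul_sum, ← Finset.mul_sum] at h
  have h2 : (∑ i, a i) / N = 1 / N * ∑ i, a i := by ring
  rw [h2]
  calc N * (1 / N * ∑ i, a i) ^ k ≤ N * (1 / N * ∑ i, a i ^ k) :=
        mul_le_mul_of_nonneg_left h hN0.le
    _ = ∑ i, a i ^ k := by field_simp

theorem B_lower (hV : 0 < Fintype.card V) (r : ℕ) : ∀ f : T V r → ℝ, (∀ x, 0 ≤ f x) →
    (Fintype.card V : ℝ) ^ (2 * r) * ((∑ x, f x) / (Fintype.card V : ℝ) ^ r) ^ (2 ^ r) ≤ B r f := by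
  have hn : (0 : ℝ) < Fintype.card V := by exact_mod_cast hV
  induction r with
  | zero =>
    intro f hf
    rw [sum_T0]
    simp [B]
  | succ r ih =>
    intro f hf
    set n : ℝ := (Fintype.card V : ℝ) with hnd
    have h1 : ∀ u v : V, n ^ (2 * r) * ((∑ x, f (u, x) * f (v, x)) / n ^ r) ^ (2 ^ r) ≤
        B r (fun x => f (u, x) * f (v, x)) := fun u v =>
      ih (fun x => f (u, x) * f (v, x)) (fun x => mul_nonneg (hf _) (hf _))
    have h2 : ∑ u : V, ∑ v : V, n ^ (2 * r) * ((∑ x, f (u, x) * f (v, x)) / n ^ r) ^ (2 ^ r) ≤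
        B (r + 1) f := by
      show _ ≤ ∑ u : V, ∑ v : V, B r (fun x => f (u, x) * f (v, x))
      exact Finset.sum_le_sum fun u _ => Finset.sum_le_sum fun v _ => h1 u v
    refine le_trans ?_ h2
    have h3 := mean_pow (ι := V × V) (n ^ 2) (by
      rw [Fintype.card_prod]; push_cast; rw [hnd]; ring) (by positivity)
      (fun p => (∑ x, f (p.1, x) * f (p.2, x)) / n ^ r)
      (fun p => div_nonneg (Finset.sum_nonneg fun x _ => mul_nonneg (hf _) (hf _)) (by positivity))
      (2 ^ r)
    rw [Fintype.sum_prod_type, Fintype.sum_prod_type] at h3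
    have h4 : ∑ u : V, ∑ v : V, n ^ (2 * r) * ((∑ x, f (u, x) * f (v, x)) / n ^ r) ^ (2 ^ r) =
        n ^ (2 * r) * ∑ u : V, ∑ v : V, ((∑ x, f (u, x) * f (v, x)) / n ^ r) ^ (2 ^ r) := by
      simp only [Finset.mul_sum]
    rw [h4]
    have h5 : ((∑ x, f x) / n ^ (r + 1)) ^ 2 ≤
        (∑ u : V, ∑ v : V, (∑ x, f (u, x) * f (v, x)) / n ^ r) / n ^ 2 := by
      have h6 : ∑ u : V, ∑ v : V, (∑ x, f (u, x) * f (v, x)) / n ^ r =
          (∑ x : T V r, (∑ u : V, f (u, x)) ^ 2) / n ^ r := by
        simp only [← Finset.sum_div]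
        congr 1
        have h7 : ∀ x : T V r, (∑ u : V, f (u, x)) ^ 2 = ∑ u : V, ∑ v : V, f (u, x) * f (v, x) := by
          intro x
          rw [pow_two, Finset.sum_mul_sum]
        simp only [h7]
        rw [Finset.sum_comm (s := (Finset.univ : Finset (T V r)))]
        exact Finset.sum_congr rfl fun u _ => Finset.sum_comm
      rw [h6]
      have h8 : (∑ x, f x) ^ 2 ≤ n ^ r * ∑ x : T V r, (∑ u : V, f (u, x)) ^ 2 := by
        rw [sum_T, Finset.sum_comm]
        have h9 := sq_sum_le_card_mul_sum_sq (s := (Finset.univ : Finset (T V r)))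
          (f := fun x => ∑ u : V, f (u, x))
        have h10 : ((Finset.univ : Finset (T V r)).card : ℝ) = n ^ r := by
          have := card_T (V := V) r
          rw [Finset.sum_const, nsmul_eq_mul, mul_one] at this
          exact this
        rw [h10] at h9
        exact h9
      rw [div_pow, div_div, div_le_div_iff₀ (by positivity) (by positivity)]
      have h11 : (n ^ (r + 1)) ^ 2 = n ^ r * (n ^ r * n ^ 2) := by ring
      rw [h11]
      have h12 : 0 ≤ n ^ r * n ^ 2 := by positivity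
      nlinarith [mul_le_mul_of_nonneg_right h8 h12]
    have h13 : ((∑ x, f x) / n ^ (r + 1)) ^ (2 ^ (r + 1)) ≤
        ((∑ u : V, ∑ v : V, (∑ x, f (u, x) * f (v, x)) / n ^ r) / n ^ 2) ^ (2 ^ r) := by
      rw [pow_succ 2 r, mul_comm (2 ^ r) 2, pow_mul]
      exact pow_le_pow_left₀ (by positivity) h5 _
    calc n ^ (2 * (r + 1)) * ((∑ x, f x) / n ^ (r + 1)) ^ (2 ^ (r + 1))
        = n ^ (2 * r) * (n ^ 2 * ((∑ x, f x) / n ^ (r + 1)) ^ (2 ^ (r + 1))) := by ring
      _ ≤ n ^ (2 * r) * (n ^ 2 *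
          ((∑ u : V, ∑ v : V, (∑ x, f (u, x) * f (v, x)) / n ^ r) / n ^ 2) ^ (2 ^ r)) := by
          gcongr
      _ ≤ _ := by
          apply mul_le_mul_of_nonneg_left h3 (by positivity)

/-- indicator -/
noncomputable def ind (p : Prop) : ℝ := if p then 1 else 0

theorem ind_pos {p : Prop} (h : p) : ind p = 1 := if_pos h
theorem ind_neg {p : Prop} (h : ¬ p) : ind p = 0 := if_neg h
theorem ind_nonneg (p : Prop) : 0 ≤ ind p := by unfold ind; split_ifs <;> norm_num
theorem ind_and (p q : Prop) : ind (p ∧ q) = ind p * ind q := by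
  by_cases h1 : p <;> by_cases h2 : q <;> simp [ind, h1, h2]
theorem ind_congr {p q : Prop} (h : p ↔ q) : ind p = ind q := by rw [propext h]

/-- all mixtures of two tuples -/
def AllMix : ∀ r, (T V r → Prop) → T V r → T V r → Prop
  | 0, P, _, _ => P ()
  | r + 1, P, (u, x), (v, y) => AllMix r (fun z => P (u, z) ∧ P (v, z)) x y

/-- the sum over all mixtures of two tuples -/
def SumMix : ∀ r, (T V r → ℝ) → T V r → T V r → ℝ
  | 0, g, _, _ => g ()
  | r + 1, g, (u, x), (v, y) => SumMix r (fun z => g (u, z) + g (v, z)) x y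

theorem AllMix_mono (r : ℕ) : ∀ (P P' : T V r → Prop) (x y : T V r), (∀ z, P z → P' z) →
    AllMix r P x y → AllMix r P' x y := by
  induction r with
  | zero => intro P P' x y h h1; exact h _ h1
  | succ r ih =>
    rintro P P' ⟨u, x⟩ ⟨v, y⟩ h h1
    exact ih _ _ x y (fun z hz => ⟨h _ hz.1, h _ hz.2⟩) h1

theorem SumMix_mono (r : ℕ) : ∀ (g g' : T V r → ℝ) (x y : T V r), (∀ z, g z ≤ g' z) →
    SumMix r g x y ≤ SumMix r g' x y := by
  induction r with
  | zero => intro P P' x y h; exact h _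
  | succ r ih =>
    rintro P P' ⟨u, x⟩ ⟨v, y⟩ h
    exact ih _ _ x y (fun z => add_le_add (h _) (h _))

theorem B_eq (r : ℕ) : ∀ P : T V r → Prop, B r (fun z => ind (P z)) =
    ∑ x : T V r, ∑ y : T V r, ind (AllMix r P x y) := by
  induction r with
  | zero =>
    intro P
    rw [sum_T0, sum_T0]
    rfl
  | succ r ih =>
    intro P
    have h1 : B (r + 1) (fun z => ind (P z)) =
        ∑ u : V, ∑ v : V, B r (fun x => ind (P (u, x) ∧ P (v, x))) := by
      show ∑ u : V, ∑ v : V, B r (fun x => ind (P (u, x)) * ind (P (v, x))) = _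
      simp only [ind_and]
    rw [h1, sum_T]
    refine Finset.sum_congr rfl fun u _ => ?_
    simp only [ih]
    rw [Finset.sum_comm]
    refine Finset.sum_congr rfl fun x _ => ?_
    rw [sum_T]
    rfl

theorem SumMix_sum (r : ℕ) : ∀ g : T V r → ℝ,
    ∑ x : T V r, ∑ y : T V r, SumMix r g x y =
      2 ^ r * (Fintype.card V : ℝ) ^ r * ∑ z, g z := by
  induction r with
  | zero =>
    intro g
    rw [sum_T0, sum_T0, sum_T0]
    simp [SumMix]
  | succ r ih =>
    intro g
    rw [sum_T]
    have h1 : ∀ u : V, ∑ x : T V r, ∑ y : T V (r + 1), SumMix (r + 1) g (u, x) y =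
        ∑ v : V, 2 ^ r * (Fintype.card V : ℝ) ^ r * (∑ z, g (u, z) + ∑ z, g (v, z)) := by
      intro u
      have h2 : ∀ x : T V r, ∑ y : T V (r + 1), SumMix (r + 1) g (u, x) y =
          ∑ v : V, ∑ y : T V r, SumMix r (fun z => g (u, z) + g (v, z)) x y := by
        intro x
        rw [sum_T]
        rfl
      simp only [h2]
      rw [Finset.sum_comm]
      refine Finset.sum_congr rfl fun v _ => ?_
      rw [ih, Finset.sum_add_distrib]
    simp only [h1]
    rw [sum_T]
    simp only [← Finset.mul_sum]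
    simp only [Finset.sum_add_distrib, Finset.sum_const, Finset.card_univ, nsmul_eq_mul]
    rw [← Finset.mul_sum]
    ring

variable (G : SimpleGraph V)

/-- different and not adjacent -/
def R (a b : V) : Prop := a ≠ b ∧ ¬ G.Adj a b

def AllR : ∀ r, V → T V r → Prop
  | 0, _, _ => True
  | r + 1, w, (u, x) => R G w u ∧ AllR r w x

def Q : ∀ r, T V r → Prop
  | 0, _ => True
  | r + 1, (u, x) => AllR G r u x ∧ Q r x

def Hit : ∀ r, V → T V r → T V r → Prop
  | 0, _, _, _ => True
  | r + 1, w, (u, x), (v, y) => (R G w u ∨ R G w v) ∧ Hit r w x y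

def ND : ∀ r, T V r → T V r → Prop
  | 0, _, _ => True
  | r + 1, (u, x), (v, y) => u ≠ v ∧ ND r x y

theorem hit_sum (w : V) (r : ℕ) : ∀ (P : T V r → Prop) (x y : T V r), AllMix r P x y →
    Hit G r w x y →
    1 ≤ SumMix r (fun z => ind (P z ∧ AllR G r w z)) x y := by
  induction r with
  | zero =>
    intro P x y h _
    have h' : P () := h
    show (1 : ℝ) ≤ ind (P () ∧ AllR G 0 w ())
    rw [ind_pos ⟨h', trivial⟩]
  | succ r ih =>
    rintro P ⟨u, x⟩ ⟨v, y⟩ h ⟨h1, h2⟩
    have h3 : AllMix r (fun z => P (u, z) ∧ P (v, z)) x y := h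
    rcases h1 with h1 | h1
    · have h4 := ih (fun z => P (u, z)) x y (AllMix_mono r _ _ x y (fun z hz => hz.1) h3) h2
      refine le_trans h4 ?_
      refine SumMix_mono r _ _ x y (fun z => ?_)
      have h5 : ind (P (u, z) ∧ AllR G r w z) = ind (P (u, z) ∧ AllR G (r + 1) w (u, z)) :=
        ind_congr ⟨fun h => ⟨h.1, h1, h.2⟩, fun h => ⟨h.1, h.2.2⟩⟩
      rw [h5]
      have h6 := ind_nonneg (P (v, z) ∧ AllR G (r + 1) w (v, z))
      linarith
    · have h4 := ih (fun z => P (v, z)) x y (AllMix_mono r _ _ x y (fun z hz => hz.2) h3) h2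
      refine le_trans h4 ?_
      refine SumMix_mono r _ _ x y (fun z => ?_)
      have h5 : ind (P (v, z) ∧ AllR G r w z) = ind (P (v, z) ∧ AllR G (r + 1) w (v, z)) :=
        ind_congr ⟨fun h => ⟨h.1, h1, h.2⟩, fun h => ⟨h.1, h.2.2⟩⟩
      rw [h5]
      have h6 := ind_nonneg (P (u, z) ∧ AllR G (r + 1) w (u, z))
      linarith

theorem nd_count (r : ℕ) : (Fintype.card V : ℝ) *
    ∑ x : T V r, ∑ y : T V r, ind (¬ ND (V := V) r x y) ≤
      r * (Fintype.card V : ℝ) ^ (2 * r) := by
  induction r with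
  | zero =>
    rw [sum_T0, sum_T0]
    simp [ND, ind]
  | succ r ih =>
    set n : ℝ := (Fintype.card V : ℝ) with hn
    have hn0 : 0 ≤ n := Nat.cast_nonneg _
    rw [sum_T]
    have h1 : ∀ u : V, ∑ x : T V r, ∑ y : T V (r + 1),
        ind (¬ ND (V := V) (r + 1) (u, x) y) ≤
        n ^ (2 * r) + n * ∑ x : T V r, ∑ y : T V r,
          ind (¬ ND (V := V) r x y) := by
      intro u
      have h2 : ∀ x : T V r, ∑ y : T V (r + 1),
          ind (¬ ND (V := V) (r + 1) (u, x) y) ≤
          n ^ r + n * ∑ y : T V r, ind (¬ ND (V := V) r x y) := by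
        intro x
        rw [sum_T]
        have h3 : ∀ (v : V) (y : T V r),
            ind (¬ ND (V := V) (r + 1) (u, x) (v, y)) ≤
            ind (u = v) + ind (¬ ND (V := V) r x y) := by
          intro v y
          have h4 : ND (V := V) (r + 1) (u, x) (v, y) ↔ u ≠ v ∧ ND (V := V) r x y := Iff.rfl
          rw [ind_congr (not_congr h4)]
          by_cases h5 : u = v <;> by_cases h6 : ND (V := V) r x y <;> simp [ind, h5, h6]
        calc ∑ v : V, ∑ y : T V r, ind (¬ ND (V := V) (r + 1) (u, x) (v, y))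
            ≤ ∑ v : V, ∑ y : T V r, (ind (u = v) +
              ind (¬ ND (V := V) r x y)) :=
              Finset.sum_le_sum fun v _ => Finset.sum_le_sum fun y _ => h3 v y
          _ = n ^ r + n * ∑ y : T V r, ind (¬ ND (V := V) r x y) := by
              simp only [Finset.sum_add_distrib]
              rw [Finset.sum_comm]
              have h5 : ∑ v : V, ind (u = v) = 1 := by
                unfold ind
                rw [Finset.sum_ite_eq]
                simp
              simp only [h5]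
              rw [card_T, Finset.sum_const, Finset.card_univ, nsmul_eq_mul]
      calc _ ≤ ∑ x : T V r, (n ^ r + n * ∑ y : T V r,
            ind (¬ ND (V := V) r x y)) := Finset.sum_le_sum fun x _ => h2 x
        _ = _ := by
            rw [Finset.sum_add_distrib, ← Finset.mul_sum]
            congr 1
            have h6 := card_T (V := V) r
            rw [Finset.sum_const, nsmul_eq_mul, mul_one] at h6
            rw [Finset.sum_const, nsmul_eq_mul, h6, two_mul, pow_add]
    calc _ ≤ n * ∑ _u : V, (n ^ (2 * r) + n * ∑ x : T V r, ∑ y : T V r,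
          ind (¬ ND (V := V) r x y)) :=
          mul_le_mul_of_nonneg_left (Finset.sum_le_sum fun u _ => h1 u) hn0
      _ = n ^ 2 * (n ^ (2 * r) + n * ∑ x : T V r, ∑ y : T V r,
          ind (¬ ND (V := V) r x y)) := by
          rw [Finset.sum_const, Finset.card_univ, nsmul_eq_mul, ← hn]; ring
      _ ≤ n ^ 2 * (n ^ (2 * r) + r * n ^ (2 * r)) := by
          gcongr
      _ = _ := by push_cast; ring

theorem not_R {a b : V} (h : ¬ R G a b) : b = a ∨ G.Adj b a := by
  unfold R at h
  by_cases h1 : a = b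
  · exact Or.inl h1.symm
  · right
    by_contra h2
    exact h ⟨h1, fun h3 => h2 h3.symm⟩

theorem nothit (D : ℝ) (hD : ∀ u v : V, u ≠ v → ∑ w : V, ind (G.Adj u w ∧ G.Adj v w) ≤ D)
    (r : ℕ) : ∀ x y : T V r, ND r x y → ∑ w : V, ind (¬ Hit G r w x y) ≤ r * (D + 2) := by
  induction r with
  | zero =>
    intro x y _
    have h : ∀ w : V, ind (¬ Hit G 0 w x y) = 0 := fun w => ind_neg (fun h => h trivial)
    simp [h]
  | succ r ih =>
    rintro ⟨u, x⟩ ⟨v, y⟩ ⟨huv, hnd⟩
    have h1 : ∀ w : V, ind (¬ Hit G (r + 1) w (u, x) (v, y)) ≤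
        ind (G.Adj u w ∧ G.Adj v w) + ind (u = w) + ind (v = w) + ind (¬ Hit G r w x y) := by
      intro w
      by_cases h2 : Hit G (r + 1) w (u, x) (v, y)
      · rw [ind_neg (not_not.2 h2)]
        have := ind_nonneg (G.Adj u w ∧ G.Adj v w)
        have := ind_nonneg (u = w)
        have := ind_nonneg (v = w)
        have := ind_nonneg (¬ Hit G r w x y)
        linarith
      · rw [ind_pos h2]
        have h3 := ind_nonneg (G.Adj u w ∧ G.Adj v w)
        have h4 := ind_nonneg (u = w)
        have h5 := ind_nonneg (v = w)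
        have h6 := ind_nonneg (¬ Hit G r w x y)
        by_cases h7 : Hit G r w x y
        · have h8 : ¬ (R G w u ∨ R G w v) := fun h9 => h2 ⟨h9, h7⟩
          rw [not_or] at h8
          rcases not_R G h8.1 with h9 | h9
          · rw [ind_pos (p := u = w) h9]; linarith
          · rcases not_R G h8.2 with h10 | h10
            · rw [ind_pos (p := v = w) h10]; linarith
            · rw [ind_pos (p := G.Adj u w ∧ G.Adj v w) ⟨h9, h10⟩]; linarith
        · rw [ind_pos (p := ¬ Hit G r w x y) h7]; linarith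
    have h5 : ∀ a : V, ∑ w : V, ind (a = w) = 1 := by
      intro a
      unfold ind
      rw [Finset.sum_ite_eq]
      simp
    calc _ ≤ ∑ w : V, (ind (G.Adj u w ∧ G.Adj v w) + ind (u = w) + ind (v = w) +
          ind (¬ Hit G r w x y)) := Finset.sum_le_sum fun w _ => h1 w
      _ = ∑ w : V, ind (G.Adj u w ∧ G.Adj v w) + 1 + 1 + ∑ w : V, ind (¬ Hit G r w x y) := by
          rw [Finset.sum_add_distrib, Finset.sum_add_distrib, Finset.sum_add_distrib, h5, h5]
      _ ≤ D + 1 + 1 + r * (D + 2) := by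
          have := hD u v huv
          have := ih x y hnd
          linarith
      _ = _ := by push_cast; ring

/-- the number of independent `r`-tuples -/
noncomputable def qn (r : ℕ) : ℝ := ∑ z : T V r, ind (Q G r z)

theorem step (r : ℕ) (c ε : ℝ) (hc : 0 < c) (hε : 0 < ε) : ∃ c' : ℝ, 0 < c' ∧ ∃ N : ℕ,
    ∀ (V : Type) [Fintype V] (G : SimpleGraph V) (D : ℝ), N ≤ Fintype.card V →
    (∀ u v : V, u ≠ v → ∑ w : V, ind (G.Adj u w ∧ G.Adj v w) ≤ D) →
    c * (Fintype.card V : ℝ) ^ r ≤ qn G r →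
    c' * (Fintype.card V : ℝ) ^ (r + 1) ≤ qn G (r + 1) ∨
      (1 - ε) * (Fintype.card V : ℝ) ≤ r * (D + 2) := by
  set β : ℝ := c ^ (2 ^ r) with hβ
  have hβ0 : 0 < β := by positivity
  refine ⟨ε * β / 2 ^ (r + 1), by positivity, ⌈2 * r / β⌉₊ + 1, ?_⟩
  intro V _ G D hN hD hq
  by_contra hcon
  rw [not_or] at hcon
  obtain ⟨hcon1, hcon2⟩ := hcon
  apply hcon1
  have hV : 0 < Fintype.card V := by omega
  set n : ℝ := (Fintype.card V : ℝ) with hn
  have hn0 : 0 < n := by rw [hn]; exact_mod_cast hV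
  have hnN : 2 * r / β ≤ n := by
    have h1 : 2 * r / β ≤ (⌈2 * r / β⌉₊ : ℝ) := Nat.le_ceil _
    have h2 : ((⌈2 * r / β⌉₊ + 1 : ℕ) : ℝ) ≤ n := by rw [hn]; exact_mod_cast hN
    push_cast at h2
    linarith
  rw [div_le_iff₀ hβ0] at hnN
  -- lower bound for the number of boxes
  have hB : n ^ (2 * r) * β ≤ ∑ x : T V r, ∑ y : T V r, ind (AllMix r (Q G r) x y) := by
    rw [← B_eq]
    refine le_trans ?_ (B_lower hV r _ (fun x => ind_nonneg _))
    apply mul_le_mul_of_nonneg_left _ (by positivity)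
    rw [hβ]
    apply pow_le_pow_left₀ hc.le
    rw [le_div_iff₀ (by positivity)]
    exact hq
  have hnd := nd_count (V := V) r
  rw [← hn] at hnd
  -- hits
  have hhit : ∀ x y : T V r, ε * n * (ind (AllMix r (Q G r) x y) - ind (¬ ND (V := V) r x y)) ≤
      ∑ w : V, ind (AllMix r (Q G r) x y ∧ Hit G r w x y) := by
    intro x y
    have h0 : 0 ≤ ∑ w : V, ind (AllMix r (Q G r) x y ∧ Hit G r w x y) :=
      Finset.sum_nonneg fun w _ => ind_nonneg _
    by_cases h1 : AllMix r (Q G r) x y
    · by_cases h2 : ND (V := V) r x y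
      · rw [ind_pos h1, ind_neg (not_not.2 h2)]
        have h3 := nothit G D hD r x y h2
        have h4 : ∀ w : V, ind (AllMix r (Q G r) x y ∧ Hit G r w x y) =
            1 - ind (¬ Hit G r w x y) := by
          intro w
          by_cases h5 : Hit G r w x y
          · rw [ind_pos (p := AllMix r (Q G r) x y ∧ Hit G r w x y) ⟨h1, h5⟩,
              ind_neg (not_not.2 h5)]; ring
          · rw [ind_neg (p := AllMix r (Q G r) x y ∧ Hit G r w x y) (fun h6 => h5 h6.2),
              ind_pos (p := ¬ Hit G r w x y) h5]; ring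
        simp only [h4]
        rw [Finset.sum_sub_distrib, Finset.sum_const, Finset.card_univ, nsmul_eq_mul, ← hn]
        rw [not_le] at hcon2
        linarith
      · rw [ind_pos h1, ind_pos (p := ¬ ND (V := V) r x y) h2]
        simpa using h0
    · rw [ind_neg h1]
      have h3 := ind_nonneg (¬ ND (V := V) r x y)
      have h4 : 0 ≤ ε * n := by positivity
      nlinarith [mul_nonneg h4 h3]
  have hsum : ∑ x : T V r, ∑ y : T V r,
      ∑ w : V, ind (AllMix r (Q G r) x y ∧ Hit G r w x y) ≤ 2 ^ r * n ^ r * qn G (r + 1) := by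
    have h1 : ∀ (x y : T V r) (w : V), ind (AllMix r (Q G r) x y ∧ Hit G r w x y) ≤
        SumMix r (fun z => ind (Q G r z ∧ AllR G r w z)) x y := by
      intro x y w
      by_cases h2 : AllMix r (Q G r) x y ∧ Hit G r w x y
      · rw [ind_pos h2]
        exact hit_sum G w r (Q G r) x y h2.1 h2.2
      · rw [ind_neg h2]
        have h3 := SumMix_mono r (fun _ : T V r => (0 : ℝ))
          (fun z => ind (Q G r z ∧ AllR G r w z)) x y (fun z => ind_nonneg _)
        have h4 : ∀ (r : ℕ) (x y : T V r), SumMix r (fun _ : T V r => (0 : ℝ)) x y = 0 := by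
          intro r
          induction r with
          | zero => intro x y; rfl
          | succ r ih =>
            rintro ⟨u, x⟩ ⟨v, y⟩
            show SumMix r (fun _ : T V r => (0 : ℝ) + 0) x y = 0
            rw [add_zero]
            exact ih x y
        rw [h4] at h3
        exact h3
    calc _ ≤ ∑ x : T V r, ∑ y : T V r, ∑ w : V,
          SumMix r (fun z => ind (Q G r z ∧ AllR G r w z)) x y :=
          Finset.sum_le_sum fun x _ => Finset.sum_le_sum fun y _ =>
            Finset.sum_le_sum fun w _ => h1 x y w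
      _ = ∑ w : V, ∑ x : T V r, ∑ y : T V r,
          SumMix r (fun z => ind (Q G r z ∧ AllR G r w z)) x y := by
          rw [Finset.sum_comm]
          have h5 : ∀ x : T V r, ∑ y : T V r, ∑ w : V,
              SumMix r (fun z => ind (Q G r z ∧ AllR G r w z)) x y = ∑ w : V, ∑ y : T V r,
              SumMix r (fun z => ind (Q G r z ∧ AllR G r w z)) x y := fun x => Finset.sum_comm
          rw [Finset.sum_comm]
          simp only [h5]
          rw [Finset.sum_comm]
      _ = ∑ w : V, 2 ^ r * n ^ r * ∑ z : T V r, ind (Q G r z ∧ AllR G r w z) := by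
          refine Finset.sum_congr rfl fun w _ => ?_
          rw [SumMix_sum]
      _ = 2 ^ r * n ^ r * qn G (r + 1) := by
          rw [← Finset.mul_sum]
          congr 1
          unfold qn
          rw [sum_T]
          refine Finset.sum_congr rfl fun w _ => Finset.sum_congr rfl fun z _ => ?_
          exact ind_congr ⟨fun h => ⟨h.2, h.1⟩, fun h => ⟨h.2, h.1⟩⟩
  have hlow : ε * n * (∑ x : T V r, ∑ y : T V r, ind (AllMix r (Q G r) x y) -
      ∑ x : T V r, ∑ y : T V r, ind (¬ ND (V := V) r x y)) ≤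
      ∑ x : T V r, ∑ y : T V r, ∑ w : V, ind (AllMix r (Q G r) x y ∧ Hit G r w x y) := by
    rw [← Finset.sum_sub_distrib, Finset.mul_sum]
    refine Finset.sum_le_sum fun x _ => ?_
    rw [← Finset.sum_sub_distrib, Finset.mul_sum]
    exact Finset.sum_le_sum fun y _ => hhit x y
  set b : ℝ := ∑ x : T V r, ∑ y : T V r, ind (AllMix r (Q G r) x y) with hb
  set m : ℝ := ∑ x : T V r, ∑ y : T V r, ind (¬ ND (V := V) r x y) with hm
  have h1 : ε * n * (b - m) ≤ 2 ^ r * n ^ r * qn G (r + 1) := le_trans hlow hsum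
  have h2 : n * (n ^ (2 * r) * β) ≤ n * b := mul_le_mul_of_nonneg_left hB hn0.le
  have h3 : n * m ≤ r * n ^ (2 * r) := hnd
  have h4 : r * n ^ (2 * r) ≤ n * (n ^ (2 * r) * β) / 2 := by
    have h5 : 0 < n ^ (2 * r) := by positivity
    nlinarith [mul_le_mul_of_nonneg_left hnN h5.le]
  have h5 : ε * (n * (n ^ (2 * r) * β) / 2) ≤ 2 ^ r * n ^ r * qn G (r + 1) := by
    refine le_trans ?_ h1
    rw [mul_assoc ε n]
    apply mul_le_mul_of_nonneg_left _ hε.le
    rw [mul_sub]
    linarith
  have h6 : 2 ^ r * n ^ r * (ε * β / 2 ^ (r + 1) * n ^ (r + 1)) =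
      ε * (n * (n ^ (2 * r) * β) / 2) := by
    rw [pow_succ 2 r]
    field_simp
    ring
  have h7 : 0 < 2 ^ r * n ^ r := by positivity
  rw [← h6] at h5
  exact le_of_mul_le_mul_left h5 h7

theorem chain (ε : ℝ) (hε : 0 < ε) (R : ℕ) : ∃ c : ℝ, 0 < c ∧ ∃ N : ℕ,
    ∀ (V : Type) [Fintype V] (G : SimpleGraph V) (D : ℝ), N ≤ Fintype.card V →
    (∀ u v : V, u ≠ v → ∑ w : V, ind (G.Adj u w ∧ G.Adj v w) ≤ D) →
    c * (Fintype.card V : ℝ) ^ R ≤ qn G R ∨
      ∃ r : ℕ, 0 < qn G r ∧ (1 - ε) * (Fintype.card V : ℝ) ≤ r * (D + 2) := by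
  induction R with
  | zero =>
    refine ⟨1, one_pos, 0, ?_⟩
    intro V _ G D _ _
    left
    unfold qn
    rw [sum_T0, ind_pos (p := Q G 0 ()) trivial]
    simp
  | succ R ih =>
    obtain ⟨c, hc, N, hN⟩ := ih
    obtain ⟨c', hc', N', hN'⟩ := step R c ε hc hε
    refine ⟨c', hc', N + N' + 1, ?_⟩
    intro V _ G D hV hD
    rcases hN V G D (by omega) hD with h | h
    · rcases hN' V G D (by omega) hD h with h' | h'
      · exact Or.inl h'
      · right
        refine ⟨R, ?_, h'⟩
        have : (0 : ℝ) < Fintype.card V := by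
          have : 0 < Fintype.card V := by omega
          exact_mod_cast this
        refine lt_of_lt_of_le ?_ h
        positivity
    · exact Or.inr h

theorem exists_indep (r : ℕ) : ∀ x : T V r, Q G r x → ∃ s : Finset V,
    (∀ a ∈ s, ∀ b ∈ s, a ≠ b → ¬ G.Adj a b) ∧ s.card = r ∧
    ∀ w, AllR G r w x → ∀ a ∈ s, R G w a := by
  induction r with
  | zero =>
    intro x _
    exact ⟨∅, by simp, by simp, by simp⟩
  | succ r ih =>
    rintro ⟨u, x⟩ ⟨h1, h2⟩
    obtain ⟨s, hs1, hs2, hs3⟩ := ih x h2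
    have hu : ∀ a ∈ s, R G u a := hs3 u h1
    have hus : u ∉ s := fun h => (hu u h).1 rfl
    refine ⟨insert u s, ?_, ?_, ?_⟩
    · intro a ha b hb hab
      rw [Finset.mem_insert] at ha hb
      rcases ha with rfl | ha
      · rcases hb with rfl | hb
        · exact absurd rfl hab
        · exact (hu b hb).2
      · rcases hb with rfl | hb
        · exact fun h => (hu a ha).2 h.symm
        · exact hs1 a ha b hb hab
    · rw [Finset.card_insert_of_notMem hus, hs2]
    · rintro w ⟨h3, h4⟩ a ha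
      rw [Finset.mem_insert] at ha
      rcases ha with rfl | ha
      · exact h3
      · exact hs3 w h4 a ha

theorem le_indepNum (r : ℕ) (h : 0 < qn G r) : r ≤ G.indepNum := by
  have h1 : ∃ z : T V r, Q G r z := by
    by_contra h2
    push Not at h2
    unfold qn at h
    have h3 : ∀ z : T V r, ind (Q G r z) = 0 := fun z => ind_neg (h2 z)
    simp [h3] at h
  obtain ⟨z, hz⟩ := h1
  obtain ⟨s, hs1, hs2, _⟩ := exists_indep G r z hz
  have h4 : G.IsIndepSet (s : Set V) := by
    intro a ha b hb hab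
    exact hs1 a ha b hb hab
  have h5 := h4.card_le_indepNum
  rw [hs2] at h5
  exact h5

end Pool.Agent.H927R5.Vu
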